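import Pool.Agent.Helper81.Cocycle.Final

set_option autoImplicit false
set_option linter.unusedSectionVars false

namespace Pool.Agent.Helper88.Ratio

open Finset Pool.Agent.Helper81.Cocycle

variable {V : Type*} [DecidableEq V] [Fintype V]

/-- every weight admits an odd function with few zeros -/
lemma HH17 : HH V (fun k => 17 / ((k : ℝ) + 1)) := by
  classical
  intro W hW
  obtain ⟨F, hF, hmin⟩ := Finset.exists_min_image
    ((Finset.univ : Finset (Finset V → ZMod 2)).filter (fun F => E F = F))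
    (fun F => ∑ S : Finset V, W S * (if F S = 0 then (1 : ℝ) else 0))
    ⟨fun _ => 0, by simp only [Finset.mem_filter, Finset.mem_univ, true_and]; funext S; simp [E]⟩
  simp only [Finset.mem_filter, Finset.mem_univ, true_and] at hF hmin
  refine ⟨F, hF, ?_⟩
  have key : ∀ J : ℕ, ∑ S : Finset V, W S * (if F S = 0 then (1 : ℝ) else 0)
      ≤ ∑ S : Finset V, W S * (17 / ((S.card : ℝ) + 1)) + (∑ S : Finset V, W S) * (3 / 4) ^ J := by
    intro J
    obtain ⟨G, hG, hle⟩ := HH_bd (V := V) J W hW
    refine (hmin G hG).trans (hle.trans (le_of_eq ?_))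
    rw [Finset.sum_mul, ← Finset.sum_add_distrib]
    refine Finset.sum_congr rfl fun S _ => ?_
    unfold bd
    ring
  have ht : Filter.Tendsto (fun J : ℕ => ∑ S : Finset V, W S * (17 / ((S.card : ℝ) + 1))
      + (∑ S : Finset V, W S) * (3 / 4 : ℝ) ^ J) Filter.atTop
      (nhds (∑ S : Finset V, W S * (17 / ((S.card : ℝ) + 1)) + (∑ S : Finset V, W S) * 0)) := by
    refine Filter.Tendsto.const_add _ (Filter.Tendsto.const_mul _ ?_)
    exact tendsto_pow_atTop_nhds_zero_of_lt_one (by norm_num) (by norm_num)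
  have := ge_of_tendsto' ht key
  rwa [mul_zero, add_zero] at this

lemma card_split (S : Finset V) (m s : ℕ) (hs : s ≤ m) :
    (((Finset.univ : Finset V).powersetCard m).filter (fun X => (S ∩ X).card = s)).card
      = S.card.choose s * (Sᶜ).card.choose (m - s) := by
  classical
  rw [← Finset.card_powersetCard s S, ← Finset.card_powersetCard (m - s) Sᶜ,
    ← Finset.card_product]
  refine Finset.card_bij' (fun X _ => (S ∩ X, X \ S)) (fun p _ => p.1 ∪ p.2) ?_ ?_ ?_ ?_
  · intro X hX
    simp only [Finset.mem_filter, Finset.mem_powersetCard] at hX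
    simp only [Finset.mem_product, Finset.mem_powersetCard]
    refine ⟨⟨Finset.inter_subset_left, hX.2⟩, ?_, ?_⟩
    · intro x hx
      exact Finset.mem_compl.mpr (Finset.mem_sdiff.mp hx).2
    · have h := Finset.card_sdiff_add_card_inter X S
      rw [Finset.inter_comm X S, hX.2, hX.1.2] at h
      omega
  · intro p hp
    simp only [Finset.mem_product, Finset.mem_powersetCard] at hp
    obtain ⟨⟨h1, h2⟩, h3, h4⟩ := hp
    have hd : Disjoint p.1 p.2 := by
      rw [Finset.disjoint_left]
      intro x hx hx'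
      exact (Finset.mem_compl.mp (h3 hx')) (h1 hx)
    have hi : S ∩ (p.1 ∪ p.2) = p.1 := by
      ext x
      simp only [Finset.mem_inter, Finset.mem_union]
      constructor
      · rintro ⟨h, h' | h'⟩
        · exact h'
        · exact absurd h (Finset.mem_compl.mp (h3 h'))
      · intro h
        exact ⟨h1 h, Or.inl h⟩
    simp only [Finset.mem_filter, Finset.mem_powersetCard]
    refine ⟨⟨Finset.subset_univ _, ?_⟩, ?_⟩
    · rw [Finset.card_union_of_disjoint hd, h2, h4]; omega
    · rw [hi, h2]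
  · intro X _
    ext x
    simp only [Finset.mem_union, Finset.mem_inter, Finset.mem_sdiff]
    tauto
  · intro p hp
    simp only [Finset.mem_product, Finset.mem_powersetCard] at hp
    obtain ⟨⟨h1, -⟩, h3, -⟩ := hp
    refine Prod.ext ?_ ?_
    · ext x
      simp only [Finset.mem_inter, Finset.mem_union]
      constructor
      · rintro ⟨h, h' | h'⟩
        · exact h'
        · exact absurd h (Finset.mem_compl.mp (h3 h'))
      · intro h
        exact ⟨h1 h, Or.inl h⟩
    · ext x
      simp only [Finset.mem_sdiff, Finset.mem_union]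
      constructor
      · rintro ⟨h | h, h'⟩
        · exact absurd (h1 h) h'
        · exact h
      · intro h
        exact ⟨Or.inr h, Finset.mem_compl.mp (h3 h)⟩

lemma sum_split (S : Finset V) (m : ℕ) (f : ℕ → ℝ) :
    ∑ X ∈ (Finset.univ : Finset V).powersetCard m, f (S ∩ X).card
      = ∑ s ∈ Finset.range (m + 1), ((S.card.choose s * (Sᶜ).card.choose (m - s) : ℕ) : ℝ) * f s := by
  classical
  have hmaps : ∀ X ∈ (Finset.univ : Finset V).powersetCard m,
      (S ∩ X).card ∈ Finset.range (m + 1) := by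
    intro X hX
    rw [Finset.mem_range]
    have h1 := Finset.card_le_card (Finset.inter_subset_right (s₁ := S) (s₂ := X))
    rw [(Finset.mem_powersetCard.mp hX).2] at h1
    omega
  rw [← Finset.sum_fiberwise_of_maps_to hmaps]
  refine Finset.sum_congr rfl fun s hs => ?_
  rw [← card_split S m s (Nat.lt_succ_iff.mp (Finset.mem_range.mp hs))]
  rw [Finset.sum_congr rfl (g := fun _ => f s)
    (fun X hX => by rw [(Finset.mem_filter.mp hX).2])]
  rw [Finset.sum_const, nsmul_eq_mul]

/-- Vandermonde bound -/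
lemma vand (k r' m' : ℕ) :
    ∑ s ∈ Finset.range (m' + 2), ((k.choose s * (r' + 1).choose (m' + 1 - s) : ℕ) : ℝ)
        * ((((m' : ℝ) + 1) - s) * (17 / (((k - s : ℕ) : ℝ) + 1)))
      ≤ 17 * (((r' : ℝ) + 1) / ((k : ℝ) + 1)) * ((k + 1 + r').choose m' : ℝ) := by
  rw [Finset.sum_range_succ]
  have hlast : ((k.choose (m' + 1) * (r' + 1).choose (m' + 1 - (m' + 1)) : ℕ) : ℝ)
        * ((((m' : ℝ) + 1) - ((m' + 1 : ℕ) : ℝ)) * (17 / (((k - (m' + 1) : ℕ) : ℝ) + 1))) = 0 := by
    push_cast
    ring
  rw [hlast, add_zero, Nat.add_choose_eq, Finset.Nat.sum_antidiagonal_eq_sum_range_succ_mk]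
  push_cast
  rw [Finset.mul_sum]
  refine Finset.sum_le_sum fun s hs => ?_
  have hs' : s ≤ m' := Nat.lt_succ_iff.mp (Finset.mem_range.mp hs)
  by_cases hk : s ≤ k
  · apply le_of_eq
    have e1 : ((k : ℝ) + 1) * (k.choose s : ℝ) = ((k + 1).choose s : ℝ) * (((k - s : ℕ) : ℝ) + 1) := by
      have h := Nat.choose_mul_succ_eq k s
      have h2 : k + 1 - s = (k - s) + 1 := by omega
      rw [h2] at h
      have h3 : (k.choose s : ℝ) * ((k : ℝ) + 1) = ((k + 1).choose s : ℝ) * (((k - s : ℕ) : ℝ) + 1) := by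
        exact_mod_cast h
      linarith
    have e2 : ((r' + 1).choose (m' + 1 - s) : ℝ) * (((m' : ℝ) + 1) - s)
        = ((r' : ℝ) + 1) * (r'.choose (m' - s) : ℝ) := by
      have h1 : m' + 1 - s = (m' - s) + 1 := by omega
      have h := Nat.add_one_mul_choose_eq r' (m' - s)
      rw [h1]
      have h2 : (((m' - s : ℕ) : ℝ)) = (m' : ℝ) - s := by
        push_cast [Nat.cast_sub hs']; ring
      have h3 : ((r' : ℝ) + 1) * (r'.choose (m' - s) : ℝ)
          = ((r' + 1).choose (m' - s + 1) : ℝ) * (((m' - s : ℕ) : ℝ) + 1) := by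
        exact_mod_cast h
      rw [h3, h2]
      ring
    have hk1 : ((k : ℝ) + 1) ≠ 0 := by positivity
    have hk2 : (((k - s : ℕ) : ℝ) + 1) ≠ 0 := by positivity
    have e3 : (k.choose s : ℝ) / (((k - s : ℕ) : ℝ) + 1) = ((k + 1).choose s : ℝ) / ((k : ℝ) + 1) := by
      rw [div_eq_div_iff hk2 hk1]
      linarith
    calc (k.choose s : ℝ) * ((r' + 1).choose (m' + 1 - s) : ℝ)
          * ((((m' : ℝ) + 1) - s) * (17 / (((k - s : ℕ) : ℝ) + 1)))
        = 17 * ((k.choose s : ℝ) / (((k - s : ℕ) : ℝ) + 1))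
            * (((r' + 1).choose (m' + 1 - s) : ℝ) * (((m' : ℝ) + 1) - s)) := by ring
      _ = 17 * (((k + 1).choose s : ℝ) / ((k : ℝ) + 1)) * (((r' : ℝ) + 1) * (r'.choose (m' - s) : ℝ)) := by
          rw [e3, e2]
      _ = _ := by ring
  · have h0 : k.choose s = 0 := Nat.choose_eq_zero_of_lt (by omega)
    rw [h0]
    have : (0 : ℝ) ≤ 17 * (((r' : ℝ) + 1) / ((k : ℝ) + 1)) *
        (((k + 1).choose s : ℝ) * (r'.choose (m' - s) : ℝ)) := by positivity
    simpa using this

end Pool.Agent.Helper88.Ratio
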