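import Pool.Agent.Helper88.Ratio.Count

set_option autoImplicit false
set_option linter.unusedSectionVars false

namespace Pool.Agent.Helper88.Ratio

open Finset Pool.Agent.Helper81.Cocycle

variable {V : Type*} [DecidableEq V] [Fintype V]

/-- the sets whose sum of labels is `g` -/
def Ng (m' : ℕ) (e : V → ZMod (m' + 1)) (g : ZMod (m' + 1)) (U : Finset V) : ZMod 2 :=
  if ∑ x ∈ U, e x = g then 1 else 0

lemma sum_g_one (m' : ℕ) (e : V → ZMod (m' + 1)) (U : Finset V) :
    ∑ g : ZMod (m' + 1), (if Ng m' e g U ≠ 0 then (1 : ℝ) else 0) = 1 := by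
  have h : ∀ g : ZMod (m' + 1), (if Ng m' e g U ≠ 0 then (1 : ℝ) else 0)
      = if ∑ x ∈ U, e x = g then 1 else 0 := by
    intro g
    unfold Ng
    by_cases hg : ∑ x ∈ U, e x = g <;> simp [hg]
  rw [Finset.sum_congr rfl fun g _ => h g]
  simp

lemma facet_sum (m' : ℕ) (e : V → ZMod (m' + 1)) (g : ZMod (m' + 1)) (U : Finset V)
    (he : Set.InjOn e (U : Set V)) :
    ∑ x ∈ U, Ng m' e g (U.erase x) = if (∑ x ∈ U, e x) - g ∈ U.image e then 1 else 0 := by
  classical
  have h1 : ∀ x ∈ U, Ng m' e g (U.erase x) = if e x = (∑ x ∈ U, e x) - g then (1 : ZMod 2) else 0 := by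
    intro x hx
    unfold Ng
    have h2 : ∑ y ∈ U.erase x, e y + e x = ∑ y ∈ U, e y := Finset.sum_erase_add _ _ hx
    have h3 : (∑ y ∈ U.erase x, e y = g) ↔ (e x = (∑ x ∈ U, e x) - g) := by
      rw [← h2]
      constructor
      · intro h; rw [h]; ring
      · intro h
        have : ∑ y ∈ U.erase x, e y = (∑ y ∈ U.erase x, e y + e x) - e x := by ring
        rw [this]
        nth_rewrite 2 [h]
        ring
    by_cases h4 : ∑ y ∈ U.erase x, e y = g
    · rw [if_pos h4, if_pos (h3.mp h4)]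
    · rw [if_neg h4, if_neg (fun h5 => h4 (h3.mpr h5))]
  rw [Finset.sum_congr rfl h1]
  by_cases hmem : (∑ x ∈ U, e x) - g ∈ U.image e
  · rw [if_pos hmem]
    obtain ⟨x, hx, hex⟩ := Finset.mem_image.mp hmem
    rw [Finset.sum_eq_single x]
    · rw [if_pos hex]
    · intro y hy hyx
      rw [if_neg]
      intro h5
      exact hyx (he hy hx (h5.trans hex.symm))
    · intro h; exact absurd hx h
  · rw [if_neg hmem]
    refine Finset.sum_eq_zero fun x hx => ?_
    rw [if_neg]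
    intro h5
    exact hmem (Finset.mem_image.mpr ⟨x, hx, h5⟩)

lemma sum_g_even (m' : ℕ) (e : V → ZMod (m' + 1)) (U : Finset V)
    (he : Set.InjOn e (U : Set V)) :
    ∑ g : ZMod (m' + 1), (if ∑ x ∈ U, Ng m' e g (U.erase x) = 0 then (1 : ℝ) else 0)
      = ((m' : ℝ) + 1) - U.card := by
  classical
  have h : ∀ g : ZMod (m' + 1), (if ∑ x ∈ U, Ng m' e g (U.erase x) = 0 then (1 : ℝ) else 0)
      = 1 - (if (∑ x ∈ U, e x) - g ∈ U.image e then 1 else 0) := by
    intro g
    rw [facet_sum m' e g U he]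
    by_cases hg : (∑ x ∈ U, e x) - g ∈ U.image e <;> simp [hg]
  rw [Finset.sum_congr rfl fun g _ => h g, Finset.sum_sub_distrib]
  have h2 : ∑ g : ZMod (m' + 1), (if (∑ x ∈ U, e x) - g ∈ U.image e then (1 : ℝ) else 0)
      = ∑ g : ZMod (m' + 1), (if g ∈ U.image e then (1 : ℝ) else 0) :=
    Equiv.sum_comp (Equiv.subLeft (∑ x ∈ U, e x)) (fun g => if g ∈ U.image e then (1 : ℝ) else 0)
  rw [h2]
  have h3 : ∑ g : ZMod (m' + 1), (if g ∈ U.image e then (1 : ℝ) else 0) = U.card := by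
    rw [Finset.sum_ite_mem, Finset.univ_inter, Finset.sum_const, nsmul_eq_mul, mul_one,
      Finset.card_image_of_injOn he]
  rw [h3]
  simp [ZMod.card]

lemma exists_enc (m' : ℕ) (V1 : Finset V) (h : V1.card = m' + 1) :
    ∃ e : V → ZMod (m' + 1), Set.InjOn e (V1 : Set V) := by
  classical
  have f : V1 ≃ ZMod (m' + 1) := (V1.equivFinOfCardEq h)
  refine ⟨fun x => if hx : x ∈ V1 then f ⟨x, hx⟩ else 0, ?_⟩
  intro x hx y hy hxy
  have hx' : x ∈ V1 := hx
  have hy' : y ∈ V1 := hy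
  simp only [hx', hy', dif_pos] at hxy
  have := f.injective hxy
  exact congrArg Subtype.val this

/-- for a fixed vertex subset, averaging over the residue -/
lemma mean_g (m' : ℕ) (V1 : Finset V) (e : V → ZMod (m' + 1)) (he : Set.InjOn e (V1 : Set V))
    (D : Finset V → ZMod 2) (S : Finset V) :
    ∑ g : ZMod (m' + 1), (if P V1 (Ng m' e g) D S = 0 then (1 : ℝ) else 0)
      ≤ 1 + (((m' : ℝ) + 1) - (S ∩ V1).card) * (if D (S \ V1) = 0 then 1 else 0) := by
  set dd : ℝ := if D (S \ V1) = 0 then 1 else 0 with hdd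
  have hdd0 : 0 ≤ dd := by rw [hdd]; split_ifs <;> norm_num
  have h1 : ∀ g : ZMod (m' + 1), (if P V1 (Ng m' e g) D S = 0 then (1 : ℝ) else 0)
      ≤ (if Ng m' e g (S ∩ V1) ≠ 0 then 1 else 0)
        + dd * (if ∑ x ∈ S ∩ V1, Ng m' e g ((S ∩ V1).erase x) = 0 then 1 else 0) := by
    intro g
    have h0 : 0 ≤ (if Ng m' e g (S ∩ V1) ≠ 0 then (1 : ℝ) else 0) := by split_ifs <;> norm_num
    have h0' : 0 ≤ (if ∑ x ∈ S ∩ V1, Ng m' e g ((S ∩ V1).erase x) = 0 then (1 : ℝ) else 0) := by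
      split_ifs <;> norm_num
    by_cases hP : P V1 (Ng m' e g) D S = 0
    · rw [if_pos hP]
      rcases P_zero V1 (Ng m' e g) D S hP with h | ⟨h, h'⟩
      · rw [if_pos h]
        have := mul_nonneg hdd0 h0'
        linarith
      · rw [if_pos h]
        have hd1 : dd = 1 := by rw [hdd, if_pos h']
        rw [hd1]
        linarith
    · rw [if_neg hP]
      positivity
  refine (Finset.sum_le_sum fun g _ => h1 g).trans (le_of_eq ?_)
  rw [Finset.sum_add_distrib, ← Finset.mul_sum, sum_g_one, sum_g_even m' e (S ∩ V1)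
    (he.mono (by
      intro x hx
      exact (Finset.mem_inter.mp (Finset.mem_coe.mp hx)).2))]
  ring

end Pool.Agent.Helper88.Ratio
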