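import Pool.Agent.Helper88.Ratio.Main
import Pool.Agent.Helper81.Cocycle.Final

set_option autoImplicit false
set_option linter.unusedSectionVars false

namespace Pool.Agent.Helper88.Ratio

open Finset Pool.Agent.Helper81.Cocycle

/-- the numerical choice of the parameter -/
lemma choice (n k : ℕ) (hn : k + 1 ≤ n) (s : ℝ) (hs0 : 0 ≤ s)
    (hs2 : s ^ 2 * (n : ℝ) = (n : ℝ) - k) (hs8 : s < 4 / 5) (htriv : 1 + 20 * s < (k : ℝ) + 1) :
    ∃ m' : ℕ, m' + 1 ≤ n ∧
      ((k : ℝ) + 1) * (1 / ((m' : ℝ) + 1) + 17 * ((n : ℝ) - k) / (((k : ℝ) + 1) * ((n : ℝ) - m')))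
        ≤ 1 + 20 * s := by
  have hkn : (k : ℝ) + 1 ≤ n := by exact_mod_cast hn
  have hn0 : (0 : ℝ) < n := by
    have : (0 : ℝ) ≤ (k : ℝ) := Nat.cast_nonneg k
    linarith
  have hr1 : (1 : ℝ) ≤ s ^ 2 * n := by rw [hs2]; linarith
  have hspos : 0 < s := by
    rcases hs0.lt_or_eq with h | h
    · exact h
    · rw [← h] at hr1; norm_num at hr1
  have hn20 : 20 * s < n := by linarith
  set x : ℝ := ((n : ℝ) + 1) / (1 + 4 * s) with hx
  have h14 : (0 : ℝ) < 1 + 4 * s := by linarith
  have hx1 : 1 < x := by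
    rw [hx, lt_div_iff₀ h14]
    linarith
  have hxn : x < (n : ℝ) + 1 := by
    rw [hx, div_lt_iff₀ h14]
    nlinarith
  -- the floor
  have hfl1 : 1 ≤ ⌊x⌋₊ := Nat.le_floor (by exact_mod_cast hx1.le)
  obtain ⟨m', hm'⟩ : ∃ m' : ℕ, ⌊x⌋₊ = m' + 1 := ⟨⌊x⌋₊ - 1, by omega⟩
  have hmx : (m' : ℝ) + 1 ≤ x := by
    have h := Nat.floor_le (show (0 : ℝ) ≤ x by linarith)
    rw [hm'] at h
    exact_mod_cast h
  have hxm : x - 1 < (m' : ℝ) + 1 := by
    have h := Nat.lt_floor_add_one x
    rw [hm'] at h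
    push_cast at h
    linarith
  have hmn : m' + 1 ≤ n := by
    have : (m' : ℝ) + 1 < (n : ℝ) + 1 := lt_of_le_of_lt hmx hxn
    have h2 : m' + 1 < n + 1 := by exact_mod_cast this
    omega
  refine ⟨m', hmn, ?_⟩
  have hk1 : (0 : ℝ) < (k : ℝ) + 1 := by positivity
  have hm1 : (0 : ℝ) < (m' : ℝ) + 1 := by positivity
  have hnm : (0 : ℝ) < (n : ℝ) - m' := by
    have : (m' : ℝ) + 1 ≤ n := by exact_mod_cast hmn
    linarith
  -- split into the two terms
  have e : ((k : ℝ) + 1) * (1 / ((m' : ℝ) + 1)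
        + 17 * ((n : ℝ) - k) / (((k : ℝ) + 1) * ((n : ℝ) - m')))
      = ((k : ℝ) + 1) / ((m' : ℝ) + 1) + 17 * ((n : ℝ) - k) / ((n : ℝ) - m') := by
    field_simp
  rw [e]
  -- second term
  have hxx : x * (1 + 4 * s) = (n : ℝ) + 1 := by rw [hx]; field_simp
  have t2 : 17 * ((n : ℝ) - k) / ((n : ℝ) - m') ≤ 17 / 4 * s + 17 * s ^ 2 := by
    rw [div_le_iff₀ hnm, ← hs2]
    -- n - m' ≥ n + 1 - x
    have h1 : (n : ℝ) + 1 - x ≤ (n : ℝ) - m' := by linarith
    have h2 : 17 * (s ^ 2 * n) ≤ (17 / 4 * s + 17 * s ^ 2) * ((n : ℝ) + 1 - x) := by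
      have h3 : (17 / 4 * s + 17 * s ^ 2) * ((n : ℝ) + 1 - x)
          = 17 / 4 * s * ((1 + 4 * s) * ((n : ℝ) + 1) - x * (1 + 4 * s)) := by ring
      rw [h3, hxx]
      have h4 : 17 / 4 * s * ((1 + 4 * s) * ((n : ℝ) + 1) - ((n : ℝ) + 1))
          = 17 * s ^ 2 * ((n : ℝ) + 1) := by ring
      rw [h4]
      nlinarith [sq_nonneg s]
    refine h2.trans ?_
    exact mul_le_mul_of_nonneg_left h1 (by positivity)
  -- first term
  have hD : (0 : ℝ) < (n : ℝ) - 4 * s := by linarith
  have t1 : ((k : ℝ) + 1) / ((m' : ℝ) + 1)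
      ≤ 1 + 20 * s - (17 / 4 * s + 17 * s ^ 2) := by
    have hpos : 0 ≤ 1 + 20 * s - (17 / 4 * s + 17 * s ^ 2) := by nlinarith
    rw [div_le_iff₀ hm1]
    have hx1' : (n : ℝ) - 4 * s = (x - 1) * (1 + 4 * s) := by
      have : (x - 1) * (1 + 4 * s) = x * (1 + 4 * s) - (1 + 4 * s) := by ring
      rw [this, hxx]; ring
    have h5 : ((k : ℝ) + 1) ≤ (1 + 20 * s - (17 / 4 * s + 17 * s ^ 2)) * (x - 1) := by
      have h6 : ((k : ℝ) + 1) * (1 + 4 * s)
          ≤ (1 + 20 * s - (17 / 4 * s + 17 * s ^ 2)) * ((n : ℝ) - 4 * s) := by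
        have hk : (k : ℝ) = n - s ^ 2 * n := by linarith
        rw [hk]
        set N : ℝ := (n : ℝ) with hN
        -- (N (1 - s^2) + 1)(1 + 4 s) ≤ (1 + 63/4 s - 17 s^2)(N - 4 s)
        -- difference = s q(s) (N - 4s) - (1+4s)(1+4s-4s^3), q = 47/4 - 16 s + 4 s^2
        have key : (1 + 4 * s) * (1 + 4 * s - 4 * s ^ 3)
            ≤ s * (47 / 4 - 16 * s + 4 * s ^ 2) * (N - 4 * s) := by
          have hq : 0 ≤ 47 / 4 - 16 * s + 4 * s ^ 2 := by nlinarith
          rcases le_or_gt s (2 / 5) with hA | hB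
          · -- case A, multiply by s
            have hA1 : s * ((1 + 4 * s) * (1 + 4 * s - 4 * s ^ 3))
                ≤ (47 / 4 - 16 * s + 4 * s ^ 2) * (1 - 4 * s ^ 3) := by
              have b1 : s * ((1 + 4 * s) * (1 + 4 * s - 4 * s ^ 3)) ≤ 2 / 5 * (13 / 5 * (13 / 5)) := by
                have c1 : (0 : ℝ) ≤ s ^ 3 := by positivity
                have c2 : 1 + 4 * s - 4 * s ^ 3 ≤ 13 / 5 := by linarith
                have c3 : 1 + 4 * s ≤ 13 / 5 := by linarith
                have c4 : 0 ≤ 1 + 4 * s - 4 * s ^ 3 := by nlinarith [sq_nonneg s]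
                have c5 : (1 + 4 * s) * (1 + 4 * s - 4 * s ^ 3) ≤ 13 / 5 * (13 / 5) :=
                  mul_le_mul c3 c2 c4 (by norm_num)
                exact mul_le_mul hA c5 (mul_nonneg h14.le c4) (by norm_num)
              have b2 : (107 / 20 : ℝ) * (93 / 125)
                  ≤ (47 / 4 - 16 * s + 4 * s ^ 2) * (1 - 4 * s ^ 3) := by
                have d1 : (107 / 20 : ℝ) ≤ 47 / 4 - 16 * s + 4 * s ^ 2 := by nlinarith [sq_nonneg s]
                have d2 : s ^ 3 ≤ (2 / 5) ^ 3 := pow_le_pow_left₀ hs0 hA 3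
                have d3 : (93 / 125 : ℝ) ≤ 1 - 4 * s ^ 3 := by
                  norm_num at d2; linarith
                exact mul_le_mul d1 d3 (by norm_num) hq
              refine b1.trans (le_trans ?_ b2)
              norm_num
            have hA2 : (47 / 4 - 16 * s + 4 * s ^ 2) * (1 - 4 * s ^ 3)
                ≤ (47 / 4 - 16 * s + 4 * s ^ 2) * (s ^ 2 * (N - 4 * s)) := by
              refine mul_le_mul_of_nonneg_left ?_ hq
              nlinarith
            have hA3 : s * ((1 + 4 * s) * (1 + 4 * s - 4 * s ^ 3))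
                ≤ s * (s * (47 / 4 - 16 * s + 4 * s ^ 2) * (N - 4 * s)) := by
              refine (hA1.trans hA2).trans (le_of_eq ?_)
              ring
            exact le_of_mul_le_mul_left hA3 hspos
          · -- case B
            have hB1 : s * (47 / 4 - 16 * s + 4 * s ^ 2) * (16 * s)
                ≤ s * (47 / 4 - 16 * s + 4 * s ^ 2) * (N - 4 * s) :=
              mul_le_mul_of_nonneg_left (by linarith) (mul_nonneg hs0 hq)
            refine le_trans ?_ hB1
            -- (1+4s)(1+4s-4s^3) ≤ 16 s^2 q(s)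
            nlinarith [mul_nonneg (sub_nonneg.mpr hB.le) (sub_nonneg.mpr hs8.le),
              mul_nonneg (mul_nonneg (sub_nonneg.mpr hB.le) (sub_nonneg.mpr hs8.le)) hs0,
              mul_nonneg (mul_nonneg (sub_nonneg.mpr hB.le) (sub_nonneg.mpr hs8.le)) (sq_nonneg s),
              sq_nonneg s, sq_nonneg (s ^ 2)]
        nlinarith [key]
      have h7 : ((k : ℝ) + 1) * (1 + 4 * s)
          ≤ ((1 + 20 * s - (17 / 4 * s + 17 * s ^ 2)) * (x - 1)) * (1 + 4 * s) := by
        rw [mul_assoc, ← hx1']; exact h6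
      exact le_of_mul_le_mul_right h7 h14
    exact h5.trans (mul_le_mul_of_nonneg_left hxm.le hpos)
  linarith

/-- the factor -/
noncomputable def fac (n k : ℕ) : ℝ := min 17 (1 + 20 * Real.sqrt (((n : ℝ) - k) / n))

/-- a function with `E F = F` and few zeros -/
lemma exists_fac (n k : ℕ) (hn : k + 1 ≤ n) : ∃ F : Finset (Fin n) → ZMod 2, E F = F ∧
    ((k : ℝ) + 1) *
      ((((Finset.univ : Finset (Fin n)).powersetCard k).filter (fun S => F S = 0)).card : ℝ)
      ≤ fac n k * (n.choose k : ℝ) := by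
  classical
  have hk1 : (0 : ℝ) < (k : ℝ) + 1 := by positivity
  have hkn : (k : ℝ) + 1 ≤ n := by exact_mod_cast hn
  have hn0 : (0 : ℝ) < n := by linarith
  set s : ℝ := Real.sqrt (((n : ℝ) - k) / n) with hs
  have hs0 : 0 ≤ s := Real.sqrt_nonneg _
  have hsq : s ^ 2 = ((n : ℝ) - k) / n := by
    rw [hs, Real.sq_sqrt]
    exact div_nonneg (by linarith) hn0.le
  have hs2 : s ^ 2 * (n : ℝ) = (n : ℝ) - k := by
    rw [hsq]; field_simp
  -- the constant bound
  obtain ⟨F0, hF0, hle0⟩ := exists_odd n k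
  have hb0 : ((k : ℝ) + 1) *
      ((((Finset.univ : Finset (Fin n)).powersetCard k).filter (fun S => F0 S = 0)).card : ℝ)
      ≤ 17 * (n.choose k : ℝ) := by
    calc ((k : ℝ) + 1) * _ ≤ ((k : ℝ) + 1) * ((n.choose k : ℝ) * (17 / ((k : ℝ) + 1))) :=
          mul_le_mul_of_nonneg_left hle0 hk1.le
      _ = 17 * (n.choose k : ℝ) := by field_simp
  rcases le_or_gt 17 (1 + 20 * s) with h17 | h17
  · refine ⟨F0, hF0, ?_⟩
    have : fac n k = 17 := by unfold fac; rw [← hs]; exact min_eq_left h17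
    rw [this]; exact hb0
  · have hfac : fac n k = 1 + 20 * s := by unfold fac; rw [← hs]; exact min_eq_right h17.le
    rw [hfac]
    rcases le_or_gt ((k : ℝ) + 1) (1 + 20 * s) with ht | ht
    · -- trivial
      refine ⟨F0, hF0, ?_⟩
      have hc : ((((Finset.univ : Finset (Fin n)).powersetCard k).filter
          (fun S => F0 S = 0)).card : ℝ) ≤ (n.choose k : ℝ) := by
        have := Finset.card_filter_le ((Finset.univ : Finset (Fin n)).powersetCard k)
          (fun S => F0 S = 0)
        rw [Finset.card_powersetCard, Finset.card_univ, Fintype.card_fin] at this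
        exact_mod_cast this
      exact mul_le_mul ht hc (Nat.cast_nonneg _) (by positivity)
    · obtain ⟨m', hm, hle⟩ := choice n k hn s hs0 hs2 (by linarith) ht
      obtain ⟨F, hF, hz⟩ := exists_odd_b n k m' (by omega) hm
      refine ⟨F, hF, ?_⟩
      calc ((k : ℝ) + 1) * _ ≤ ((k : ℝ) + 1) * ((n.choose k : ℝ) * (1 / ((m' : ℝ) + 1)
            + 17 * ((n : ℝ) - k) / (((k : ℝ) + 1) * ((n : ℝ) - m')))) :=
            mul_le_mul_of_nonneg_left hz hk1.le
        _ = (((k : ℝ) + 1) * (1 / ((m' : ℝ) + 1)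
            + 17 * ((n : ℝ) - k) / (((k : ℝ) + 1) * ((n : ℝ) - m')))) * (n.choose k : ℝ) := by ring
        _ ≤ (1 + 20 * s) * (n.choose k : ℝ) :=
            mul_le_mul_of_nonneg_right hle (Nat.cast_nonneg _)

/-- main theorem -/
theorem main (k : ℕ) (hk : Even k) (n : ℕ) :
    ∃ C : Finset (Finset (Fin n)),
      (∀ e ∈ C, e.card = k) ∧
      (∀ S : Finset (Fin n), S.card = k + 1 → Even ((C.filter (fun e => e ⊆ S)).card)) ∧
      ((k : ℝ) + 1) * ((n.choose k : ℝ) - C.card)
        ≤ min 17 (1 + 20 * Real.sqrt (((n : ℝ) - k) / n)) * (n.choose k : ℝ) ∧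
      ∀ H : Finset (Finset (Fin n)), (∀ e ∈ H, e.card = k) →
        (∀ S : Finset (Fin n), S.card = k + 1 → ¬ (S.powersetCard k ⊆ H)) →
        (n.choose k : ℝ) - C.card
          ≤ min 17 (1 + 20 * Real.sqrt (((n : ℝ) - k) / n)) * ((n.choose k : ℝ) - H.card) := by
  classical
  have hf0 : 0 ≤ fac n k := by
    unfold fac
    exact le_min (by norm_num) (by positivity)
  change ∃ C : Finset (Finset (Fin n)),
      (∀ e ∈ C, e.card = k) ∧
      (∀ S : Finset (Fin n), S.card = k + 1 → Even ((C.filter (fun e => e ⊆ S)).card)) ∧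
      ((k : ℝ) + 1) * ((n.choose k : ℝ) - C.card) ≤ fac n k * (n.choose k : ℝ) ∧
      ∀ H : Finset (Finset (Fin n)), (∀ e ∈ H, e.card = k) →
        (∀ S : Finset (Fin n), S.card = k + 1 → ¬ (S.powersetCard k ⊆ H)) →
        (n.choose k : ℝ) - C.card ≤ fac n k * ((n.choose k : ℝ) - H.card)
  by_cases hn : k + 1 ≤ n
  · obtain ⟨F, hF, hle⟩ := exists_fac n k hn
    refine ⟨((Finset.univ : Finset (Fin n)).powersetCard k).filter (fun e => F e ≠ 0), ?_, ?_, ?_⟩
    · intro e he
      exact (Finset.mem_powersetCard.mp (Finset.mem_filter.mp he).1).2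
    · intro S hS
      exact even_card_of_odd_fun hk F hF S hS
    · have hcard : (n.choose k : ℝ) - ((((Finset.univ : Finset (Fin n)).powersetCard k).filter
          (fun e => F e ≠ 0)).card : ℝ)
          = ((((Finset.univ : Finset (Fin n)).powersetCard k).filter (fun e => F e = 0)).card : ℝ) := by
        have h1 := Finset.card_filter_add_card_filter_not
          (s := (Finset.univ : Finset (Fin n)).powersetCard k) (fun e => F e = 0)
        rw [Finset.card_powersetCard, Finset.card_univ, Fintype.card_fin] at h1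
        simp only [ne_eq]
        rw [← h1]
        push_cast
        ring
      rw [hcard]
      refine ⟨hle, ?_⟩
      intro H hHk hfree
      have h3 := choose_le_of_cliqueFree hn H hfree
      have hHsub : H ⊆ (Finset.univ : Finset (Fin n)).powersetCard k := fun e he =>
        Finset.mem_powersetCard.mpr ⟨Finset.subset_univ _, hHk e he⟩
      have hHle : H.card ≤ n.choose k := by
        have := Finset.card_le_card hHsub
        rwa [Finset.card_powersetCard, Finset.card_univ, Fintype.card_fin] at this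
      rw [Finset.card_sdiff_of_subset hHsub, Finset.card_powersetCard, Finset.card_univ,
        Fintype.card_fin] at h3
      have h4 : (n.choose k : ℝ) ≤ ((k : ℝ) + 1) * ((n.choose k : ℝ) - H.card) := by
        rw [← Nat.cast_sub hHle]
        exact_mod_cast h3
      have hk1 : (0 : ℝ) < (k : ℝ) + 1 := by positivity
      have h5 := hle.trans (mul_le_mul_of_nonneg_left h4 hf0)
      refine le_of_mul_le_mul_left (h5.trans (le_of_eq ?_)) hk1
      ring
  · refine ⟨(Finset.univ : Finset (Fin n)).powersetCard k, ?_, ?_, ?_, ?_⟩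
    · intro e he
      exact (Finset.mem_powersetCard.mp he).2
    · intro S hS
      exfalso
      have := Finset.card_le_univ S
      rw [Fintype.card_fin, hS] at this
      omega
    · rw [Finset.card_powersetCard, Finset.card_univ, Fintype.card_fin, sub_self, mul_zero]
      exact mul_nonneg hf0 (Nat.cast_nonneg _)
    · intro H hHk _
      rw [Finset.card_powersetCard, Finset.card_univ, Fintype.card_fin, sub_self]
      have hHsub : H ⊆ (Finset.univ : Finset (Fin n)).powersetCard k := fun e he =>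
        Finset.mem_powersetCard.mpr ⟨Finset.subset_univ _, hHk e he⟩
      have hHle : H.card ≤ n.choose k := by
        have := Finset.card_le_card hHsub
        rwa [Finset.card_powersetCard, Finset.card_univ, Fintype.card_fin] at this
      refine mul_nonneg hf0 ?_
      have : (H.card : ℝ) ≤ (n.choose k : ℝ) := by exact_mod_cast hHle
      linarith

end Pool.Agent.Helper88.Ratio
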