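import Pool.Agent.Helper88.Ratio.Fam

set_option autoImplicit false
set_option linter.unusedSectionVars false

namespace Pool.Agent.Helper88.Ratio

open Finset Pool.Agent.Helper81.Cocycle

variable {V : Type*} [DecidableEq V] [Fintype V]

/-- a labelling of `V` that is injective on `V1` when `V1` has `m'+1` elements -/
noncomputable def enc (m' : ℕ) (V1 : Finset V) : V → ZMod (m' + 1) :=
  if h : V1.card = m' + 1 then (exists_enc m' V1 h).choose else fun _ => 0

lemma enc_inj (m' : ℕ) (V1 : Finset V) (h : V1.card = m' + 1) :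
    Set.InjOn (enc m' V1) (V1 : Set V) := by
  unfold enc
  rw [dif_pos h]
  exact (exists_enc m' V1 h).choose_spec

/-- the hypergeometric bound for one set -/
lemma one_set (S : Finset V) (m' : ℕ) (hm : m' + 1 ≤ Fintype.card V) :
    ∑ V1 ∈ (Finset.univ : Finset V).powersetCard (m' + 1),
        (((m' : ℝ) + 1) - (S ∩ V1).card) * (17 / (((S \ V1).card : ℝ) + 1))
      ≤ ((Fintype.card V).choose (m' + 1) : ℝ) * (((m' : ℝ) + 1) *
          (17 * ((Fintype.card V : ℝ) - S.card) /
            (((S.card : ℝ) + 1) * ((Fintype.card V : ℝ) - m')))) := by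
  classical
  set n := Fintype.card V with hn
  have hSn : S.card ≤ n := Finset.card_le_univ S
  have e1 : ∀ V1 ∈ (Finset.univ : Finset V).powersetCard (m' + 1),
      (((m' : ℝ) + 1) - (S ∩ V1).card) * (17 / (((S \ V1).card : ℝ) + 1))
      = (fun s : ℕ => (((m' : ℝ) + 1) - s) * (17 / (((S.card - s : ℕ) : ℝ) + 1))) (S ∩ V1).card := by
    intro V1 _
    have h : (S \ V1).card = S.card - (S ∩ V1).card := by
      have := Finset.card_sdiff_add_card_inter S V1
      omega
    simp only [h]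
  rw [Finset.sum_congr rfl e1, sum_split S (m' + 1)
    (fun s : ℕ => (((m' : ℝ) + 1) - s) * (17 / (((S.card - s : ℕ) : ℝ) + 1)))]
  have hc : (Sᶜ).card = n - S.card := by rw [Finset.card_compl]
  rw [hc]
  have hmn : (0 : ℝ) < (n : ℝ) - m' := by
    have : (m' : ℝ) + 1 ≤ n := by exact_mod_cast hm
    linarith
  have hk1 : (0 : ℝ) < (S.card : ℝ) + 1 := by positivity
  rcases Nat.eq_zero_or_pos (n - S.card) with h0 | h0
  · -- no complement
    rw [h0]
    have hz : ∀ s ∈ Finset.range (m' + 1 + 1),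
        ((S.card.choose s * (0 : ℕ).choose (m' + 1 - s) : ℕ) : ℝ) *
          ((((m' : ℝ) + 1) - s) * (17 / (((S.card - s : ℕ) : ℝ) + 1))) = 0 := by
      intro s hs
      have hs' : s ≤ m' + 1 := Nat.lt_succ_iff.mp (Finset.mem_range.mp hs)
      rcases Nat.eq_or_lt_of_le hs' with h | h
      · rw [h]; push_cast; ring
      · have : (0 : ℕ).choose (m' + 1 - s) = 0 := Nat.choose_eq_zero_of_lt (by omega)
        rw [this]; simp
    rw [Finset.sum_eq_zero hz]
    have : (0 : ℝ) ≤ (n : ℝ) - S.card := by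
      have : (S.card : ℝ) ≤ n := by exact_mod_cast hSn
      linarith
    positivity
  · obtain ⟨r', hr'⟩ : ∃ r', n - S.card = r' + 1 := ⟨n - S.card - 1, by omega⟩
    rw [hr']
    refine (vand S.card r' m').trans (le_of_eq ?_)
    have hn2 : S.card + 1 + r' = n := by omega
    rw [hn2]
    have h1 : (n.choose (m' + 1) : ℝ) * ((m' : ℝ) + 1) = (n.choose m' : ℝ) * ((n : ℝ) - m') := by
      have h := Nat.choose_succ_right_eq n m'
      have h2 : ((n - m' : ℕ) : ℝ) = (n : ℝ) - m' := by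
        push_cast [Nat.cast_sub (show m' ≤ n by omega)]; ring
      rw [← h2]
      exact_mod_cast h
    have h3 : ((r' : ℝ) + 1) = (n : ℝ) - S.card := by
      have h4 : ((n - S.card : ℕ) : ℝ) = ((r' + 1 : ℕ) : ℝ) := by rw [hr']
      rw [Nat.cast_sub hSn] at h4
      push_cast at h4
      linarith
    rw [h3, ← mul_assoc, h1]
    field_simp

/-- averaging over the vertex subset and the residue -/
theorem exists_odd_b (n k m' : ℕ) (hkn : k ≤ n) (hm : m' + 1 ≤ n) :
    ∃ F : Finset (Fin n) → ZMod 2, E F = F ∧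
    ((((Finset.univ : Finset (Fin n)).powersetCard k).filter (fun S => F S = 0)).card : ℝ)
      ≤ (n.choose k : ℝ) * (1 / ((m' : ℝ) + 1)
        + 17 * ((n : ℝ) - k) / (((k : ℝ) + 1) * ((n : ℝ) - m'))) := by
  classical
  set K := (Finset.univ : Finset (Fin n)).powersetCard k with hK
  set M := (Finset.univ : Finset (Fin n)).powersetCard (m' + 1) with hM
  have hKc : (K.card : ℝ) = n.choose k := by
    rw [hK, Finset.card_powersetCard, Finset.card_univ, Fintype.card_fin]
  have hMc : (M.card : ℝ) = n.choose (m' + 1) := by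
    rw [hM, Finset.card_powersetCard, Finset.card_univ, Fintype.card_fin]
  have hMpos : (0 : ℝ) < M.card := by
    rw [hMc]; exact_mod_cast Nat.choose_pos hm
  have hw : ∀ V1 ∈ M, ∀ S : Finset (Fin n), 0 ≤ ((m' : ℝ) + 1) - (S ∩ V1).card := by
    intro V1 hV1 S
    have h1 := Finset.card_le_card (Finset.inter_subset_right (s₁ := S) (s₂ := V1))
    rw [(Finset.mem_powersetCard.mp hV1).2] at h1
    have : ((S ∩ V1).card : ℝ) ≤ (m' : ℝ) + 1 := by exact_mod_cast h1
    linarith
  set W' : Finset (Fin n) → ℝ := fun T => ∑ S ∈ K, ∑ V1 ∈ M,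
    (((m' : ℝ) + 1) - (S ∩ V1).card) * (if S \ V1 = T then 1 else 0) with hW'
  have hW'0 : ∀ T, 0 ≤ W' T := by
    intro T
    refine Finset.sum_nonneg fun S _ => Finset.sum_nonneg fun V1 hV1 => ?_
    refine mul_nonneg (hw V1 hV1 S) ?_
    split_ifs <;> norm_num
  obtain ⟨D, hD, hDle⟩ := HH17 (V := Fin n) W' hW'0
  have hpush : ∀ f : Finset (Fin n) → ℝ, ∑ T : Finset (Fin n), W' T * f T
      = ∑ S ∈ K, ∑ V1 ∈ M, (((m' : ℝ) + 1) - (S ∩ V1).card) * f (S \ V1) := by
    intro f
    calc ∑ T : Finset (Fin n), W' T * f T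
        = ∑ T : Finset (Fin n), ∑ S ∈ K, ∑ V1 ∈ M,
            (((m' : ℝ) + 1) - (S ∩ V1).card) * (if S \ V1 = T then f T else 0) := by
          refine Finset.sum_congr rfl fun T _ => ?_
          rw [hW', Finset.sum_mul]
          refine Finset.sum_congr rfl fun S _ => ?_
          rw [Finset.sum_mul]
          refine Finset.sum_congr rfl fun V1 _ => ?_
          split_ifs <;> ring
      _ = ∑ S ∈ K, ∑ V1 ∈ M, ∑ T : Finset (Fin n),
            (((m' : ℝ) + 1) - (S ∩ V1).card) * (if S \ V1 = T then f T else 0) := by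
          rw [Finset.sum_comm]
          refine Finset.sum_congr rfl fun S _ => ?_
          rw [Finset.sum_comm]
      _ = _ := by
          refine Finset.sum_congr rfl fun S _ => Finset.sum_congr rfl fun V1 _ => ?_
          rw [← Finset.mul_sum]
          congr 1
          simp
  set z : Finset (Fin n) × ZMod (m' + 1) → ℝ := fun p =>
    ∑ S ∈ K, (if P p.1 (Ng m' (enc m' p.1) p.2) D S = 0 then (1 : ℝ) else 0) with hz
  set R : ℝ := (n.choose k : ℝ) * (1 / ((m' : ℝ) + 1)
        + 17 * ((n : ℝ) - k) / (((k : ℝ) + 1) * ((n : ℝ) - m'))) with hR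
  have hm1 : (0 : ℝ) < (m' : ℝ) + 1 := by positivity
  have htot : ∑ p ∈ M ×ˢ (Finset.univ : Finset (ZMod (m' + 1))), z p
      ≤ ∑ p ∈ M ×ˢ (Finset.univ : Finset (ZMod (m' + 1))), R := by
    rw [Finset.sum_product]
    have h1 : ∀ V1 ∈ M, ∑ g : ZMod (m' + 1), z (V1, g)
        ≤ ∑ S ∈ K, (1 + (((m' : ℝ) + 1) - (S ∩ V1).card) * (if D (S \ V1) = 0 then 1 else 0)) := by
      intro V1 hV1
      rw [hz]
      simp only
      rw [Finset.sum_comm]
      refine Finset.sum_le_sum fun S _ => ?_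
      exact mean_g m' V1 (enc m' V1) (enc_inj m' V1 (Finset.mem_powersetCard.mp hV1).2) D S
    refine (Finset.sum_le_sum h1).trans ?_
    have h2 : ∑ V1 ∈ M, ∑ S ∈ K,
        (1 + (((m' : ℝ) + 1) - (S ∩ V1).card) * (if D (S \ V1) = 0 then (1 : ℝ) else 0))
        = (M.card : ℝ) * K.card + ∑ T : Finset (Fin n), W' T * (if D T = 0 then 1 else 0) := by
      rw [hpush, Finset.sum_comm (s := K) (t := M)]
      simp_rw [Finset.sum_add_distrib]
      simp
    rw [h2]
    have h3 : ∑ T : Finset (Fin n), W' T * (17 / ((T.card : ℝ) + 1))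
        ≤ (K.card : ℝ) * ((n.choose (m' + 1) : ℝ) * (((m' : ℝ) + 1) *
          (17 * ((n : ℝ) - k) / (((k : ℝ) + 1) * ((n : ℝ) - m'))))) := by
      rw [hpush (fun T => 17 / ((T.card : ℝ) + 1)), ← nsmul_eq_mul, ← Finset.sum_const]
      refine Finset.sum_le_sum fun S hS => ?_
      have h4 := one_set S m' (by rw [Fintype.card_fin]; exact hm)
      rw [Fintype.card_fin, (Finset.mem_powersetCard.mp hS).2] at h4
      exact h4
    have h5 : ∑ p ∈ M ×ˢ (Finset.univ : Finset (ZMod (m' + 1))), R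
        = (M.card : ℝ) * ((m' : ℝ) + 1) * R := by
      rw [Finset.sum_const, Finset.card_product, Finset.card_univ, ZMod.card, nsmul_eq_mul]
      push_cast
      ring
    rw [h5, hR, ← hKc]
    rw [← hMc] at h3
    have h6 : (M.card : ℝ) * K.card + (K.card : ℝ) * ((M.card : ℝ) * (((m' : ℝ) + 1) *
          (17 * ((n : ℝ) - k) / (((k : ℝ) + 1) * ((n : ℝ) - m')))))
        = (M.card : ℝ) * ((m' : ℝ) + 1) * ((K.card : ℝ) * (1 / ((m' : ℝ) + 1)
        + 17 * ((n : ℝ) - k) / (((k : ℝ) + 1) * ((n : ℝ) - m')))) := by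
      have : ((m' : ℝ) + 1) * (1 / ((m' : ℝ) + 1)) = 1 := by field_simp
      calc (M.card : ℝ) * K.card + (K.card : ℝ) * ((M.card : ℝ) * (((m' : ℝ) + 1) *
          (17 * ((n : ℝ) - k) / (((k : ℝ) + 1) * ((n : ℝ) - m')))))
          = (M.card : ℝ) * K.card * (((m' : ℝ) + 1) * (1 / ((m' : ℝ) + 1)))
            + (K.card : ℝ) * ((M.card : ℝ) * (((m' : ℝ) + 1) *
          (17 * ((n : ℝ) - k) / (((k : ℝ) + 1) * ((n : ℝ) - m'))))) := by rw [this, mul_one]
        _ = _ := by ring
    rw [← h6]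
    linarith
  have hne : (M ×ˢ (Finset.univ : Finset (ZMod (m' + 1)))).Nonempty := by
    rw [Finset.nonempty_product]
    refine ⟨?_, Finset.univ_nonempty⟩
    rw [← Finset.card_pos]
    exact_mod_cast hMpos
  obtain ⟨⟨V1, g⟩, -, hle⟩ := Finset.exists_le_of_sum_le hne htot
  refine ⟨P V1 (Ng m' (enc m' V1) g) D, E_P V1 _ D hD, ?_⟩
  refine le_trans (le_of_eq ?_) hle
  rw [hz]
  simp only
  rw [Finset.card_filter, Nat.cast_sum]
  refine Finset.sum_congr rfl fun S _ => ?_
  split_ifs <;> simp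

end Pool.Agent.Helper88.Ratio
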